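import Pool.Agent.H4R2.LO.Defs

/-! # Project LE, job NET: a net for the slowly varying functions on a box -/

set_option autoImplicit false

open scoped BigOperators

namespace Pool.Agent.Q257.LE

open Pool.Agent.H4R2.LO (Zd bx)

theorem grid {θ : ℝ} (hθ : 0 < θ) (r : ℝ) (hr : |r| ≤ 1) :
    ∃ k ∈ Finset.Icc (-(⌊1 / θ⌋₊ : ℤ)) (⌊1 / θ⌋₊ : ℤ), |r - θ * (k : ℝ)| ≤ θ := by
  have hpos : ∀ r : ℝ, 0 ≤ r → r ≤ 1 → ∃ k : ℤ, 0 ≤ k ∧ k ≤ (⌊1 / θ⌋₊ : ℤ) ∧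
      |r - θ * (k : ℝ)| ≤ θ := by
    intro r h0 h1
    have h2 : 0 ≤ r / θ := by positivity
    refine ⟨(⌊r / θ⌋₊ : ℤ), by positivity, ?_, ?_⟩
    · exact_mod_cast Nat.floor_le_floor (div_le_div_of_nonneg_right h1 hθ.le)
    · have h3 := Nat.floor_le h2
      have h4 := Nat.lt_floor_add_one (r / θ)
      rw [Int.cast_natCast]
      have h5 : θ * (⌊r / θ⌋₊ : ℝ) ≤ r := by
        have := mul_le_mul_of_nonneg_left h3 hθ.le
        rwa [mul_div_cancel₀ _ hθ.ne'] at this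
      have h6 : r < θ * (⌊r / θ⌋₊ : ℝ) + θ := by
        have := mul_lt_mul_of_pos_left h4 hθ
        rw [mul_div_cancel₀ _ hθ.ne'] at this
        linarith
      rw [abs_le]
      constructor <;> linarith
  rcases le_total 0 r with h | h
  · obtain ⟨k, h1, h2, h3⟩ := hpos r h ((le_abs_self r).trans hr)
    exact ⟨k, Finset.mem_Icc.2 ⟨by omega, h2⟩, h3⟩
  · obtain ⟨k, h1, h2, h3⟩ := hpos (-r) (by linarith) ((neg_le_abs r).trans hr)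
    refine ⟨-k, Finset.mem_Icc.2 ⟨by omega, by omega⟩, ?_⟩
    rw [← abs_neg]
    push_cast
    rw [show -(r - θ * -(k : ℝ)) = -r - θ * k by ring]
    exact h3

/-- the cell of a point -/
def qc {d : ℕ} (ℓ : ℕ) (x : Zd d) : Zd d := fun i => x i / (ℓ : ℤ)

theorem qc_norm {d : ℕ} {ℓ : ℕ} (hℓ : 1 ≤ ℓ) {x y : Zd d} (h : qc ℓ x = qc ℓ y) :
    ‖x - y‖ ≤ ℓ := by
  refine (pi_norm_le_iff_of_nonneg (Nat.cast_nonneg ℓ)).2 fun i => ?_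
  have h1 : x i / (ℓ : ℤ) = y i / (ℓ : ℤ) := congrFun h i
  have hl : (0 : ℤ) < ℓ := by exact_mod_cast hℓ
  have e1 := Int.mul_ediv_add_emod (x i) ℓ
  have e2 := Int.mul_ediv_add_emod (y i) ℓ
  have e3 := Int.emod_nonneg (x i) hl.ne'
  have e4 := Int.emod_nonneg (y i) hl.ne'
  have e5 := Int.emod_lt_of_pos (x i) hl
  have e6 := Int.emod_lt_of_pos (y i) hl
  rw [h1] at e1
  have h2 : |x i - y i| ≤ (ℓ : ℤ) := by
    rw [abs_le]; constructor <;> linarith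
  rw [Pi.sub_apply, Int.norm_eq_abs]
  exact_mod_cast h2

/-- the cells which meet the box -/
noncomputable def cells {d : ℕ} (b : Zd d) (M ℓ : ℕ) : Finset (Zd d) :=
  Fintype.piFinset fun i => Finset.Icc ((b i - M) / (ℓ : ℤ)) ((b i + M) / (ℓ : ℤ))

theorem mem_cells {d : ℕ} {b : Zd d} {M ℓ : ℕ} (hℓ : 1 ≤ ℓ) {x : Zd d} (hx : x ∈ bx b M) :
    qc ℓ x ∈ cells b M ℓ := by
  have hl : (0 : ℤ) < ℓ := by exact_mod_cast hℓ
  rw [cells, Fintype.mem_piFinset]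
  intro i
  have h1 := Finset.mem_Icc.1 (Fintype.mem_piFinset.1 hx i)
  exact Finset.mem_Icc.2 ⟨Int.ediv_le_ediv hl h1.1, Int.ediv_le_ediv hl h1.2⟩

theorem card_cells {d : ℕ} (b : Zd d) (M ℓ : ℕ) (hℓ : 1 ≤ ℓ) :
    ((cells b M ℓ).card : ℝ) ≤ (2 * (M : ℝ) / ℓ + 3) ^ d := by
  have hl : (0 : ℤ) < ℓ := by exact_mod_cast hℓ
  have hl' : (0 : ℝ) < ℓ := by exact_mod_cast hℓ
  rw [cells, Fintype.card_piFinset]
  push_cast
  have h : ∀ i, ((Finset.Icc ((b i - M) / (ℓ : ℤ)) ((b i + M) / (ℓ : ℤ))).card : ℝ) ≤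
      2 * (M : ℝ) / ℓ + 3 := by
    intro i
    rw [Int.card_Icc]
    have h1 : (((b i + M) / (ℓ : ℤ) + 1 - (b i - M) / (ℓ : ℤ)).toNat : ℝ) =
        (((b i + M) / (ℓ : ℤ) + 1 - (b i - M) / (ℓ : ℤ) : ℤ) : ℝ) := by
      rw [← Int.cast_natCast, Int.toNat_of_nonneg]
      have := Int.ediv_le_ediv hl (show b i - M ≤ b i + M by omega)
      omega
    rw [h1]
    have e1 := Int.mul_ediv_add_emod (b i + M) ℓ
    have e2 := Int.mul_ediv_add_emod (b i - M) ℓ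
    have e3 := Int.emod_nonneg (b i + M) hl.ne'
    have e6 := Int.emod_lt_of_pos (b i - M) hl
    have h2 : (ℓ : ℤ) * ((b i + M) / (ℓ : ℤ) - (b i - M) / (ℓ : ℤ)) ≤ 2 * M + ℓ := by
      rw [mul_sub]; linarith
    have h3 : (ℓ : ℝ) * (((b i + M) / (ℓ : ℤ) - (b i - M) / (ℓ : ℤ) : ℤ) : ℝ) ≤ 2 * M + ℓ := by
      exact_mod_cast h2
    have h4 : (((b i + M) / (ℓ : ℤ) - (b i - M) / (ℓ : ℤ) : ℤ) : ℝ) ≤ 2 * (M : ℝ) / ℓ + 1 := by
      rw [div_add_one hl'.ne', le_div_iff₀ hl']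
      linarith
    push_cast at h4 ⊢
    linarith
  refine (Finset.prod_le_prod (fun i _ => Nat.cast_nonneg _) fun i _ => h i).trans ?_
  rw [Finset.prod_const, Finset.card_univ, Fintype.card_fin]

theorem net (d : ℕ) (b : Zd d) (M ℓ : ℕ) (θ : ℝ) (hℓ : 1 ≤ ℓ) (hθ : 0 < θ) (_hθ1 : θ ≤ 1) :
    ∃ 𝒩 : Finset (Zd d → ℝ), (∀ f ∈ 𝒩, ∀ x, |f x| ≤ 1) ∧
      (𝒩.card : ℝ) ≤ Real.exp ((2 / θ + 1) * (2 * (M : ℝ) / ℓ + 3) ^ d) ∧
      ∀ ρ : Zd d → ℝ, (∀ x, |ρ x| ≤ 1) → (∀ x y, |ρ x - ρ y| ≤ θ / ℓ * ‖x - y‖) →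
        ∃ f ∈ 𝒩, ∀ x ∈ bx b M, |ρ x - f x| ≤ 2 * θ := by
  classical
  have hl' : (0 : ℝ) < ℓ := by exact_mod_cast hℓ
  set n : ℕ := ⌊1 / θ⌋₊ with hn
  have hnθ : (n : ℝ) ≤ 1 / θ := Nat.floor_le (by positivity)
  have hnθ' : θ * n ≤ 1 := by
    have := mul_le_mul_of_nonneg_left hnθ hθ.le
    rwa [mul_one_div_cancel hθ.ne'] at this
  set G : Finset ℤ := Finset.Icc (-(n : ℤ)) n with hG
  set Q := cells b M ℓ with hQ
  let Φ : (Q → ℤ) → Zd d → ℝ := fun f x => if h : qc ℓ x ∈ Q then θ * (f ⟨qc ℓ x, h⟩ : ℝ) else 0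
  set P : Finset (Q → ℤ) := Fintype.piFinset fun _ => G with hP
  refine ⟨P.image Φ, ?_, ?_, ?_⟩
  · intro f hf x
    obtain ⟨g, hg, rfl⟩ := Finset.mem_image.1 hf
    simp only [Φ]
    split_ifs with h
    · have h1 := Finset.mem_Icc.1 (Fintype.mem_piFinset.1 hg ⟨qc ℓ x, h⟩)
      have h2 : |((g ⟨qc ℓ x, h⟩ : ℤ) : ℝ)| ≤ n := by
        rw [abs_le]
        exact ⟨by exact_mod_cast h1.1, by exact_mod_cast h1.2⟩
      rw [abs_mul, abs_of_pos hθ]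
      exact (mul_le_mul_of_nonneg_left h2 hθ.le).trans hnθ'
    · simp
  · have h1 : ((P.image Φ).card : ℝ) ≤ P.card := by exact_mod_cast Finset.card_image_le
    refine h1.trans ?_
    have h2 : P.card = (2 * n + 1) ^ Q.card := by
      rw [hP, Fintype.card_piFinset]
      simp only [Finset.prod_const, Finset.card_univ, Fintype.card_coe]
      congr 1
      rw [hG, Int.card_Icc]
      omega
    rw [h2]
    push_cast
    have h3 : (2 * (n : ℝ) + 1) ≤ 2 / θ + 1 := by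
      have : 2 / θ = 2 * (1 / θ) := by ring
      rw [this]; linarith
    have h4 : (2 * (n : ℝ) + 1) ≤ Real.exp (2 / θ + 1) :=
      h3.trans ((by linarith [Real.add_one_le_exp (2 / θ + 1)]))
    have h5 : (2 * (n : ℝ) + 1) ^ Q.card ≤ Real.exp (2 / θ + 1) ^ Q.card :=
      pow_le_pow_left₀ (by positivity) h4 _
    refine h5.trans ?_
    rw [← Real.exp_nat_mul]
    apply Real.exp_le_exp.2
    rw [mul_comm]
    exact mul_le_mul_of_nonneg_left (card_cells b M ℓ hℓ) (by positivity)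
  · intro ρ hρ hL
    have h1 : ∀ c : Q, ∃ p : Zd d, (∃ x ∈ bx b M, qc ℓ x = c) → qc ℓ p = c := by
      intro c
      by_cases h : ∃ x ∈ bx b M, qc ℓ x = c
      · obtain ⟨x, _, hx⟩ := h
        exact ⟨x, fun _ => hx⟩
      · exact ⟨0, fun h' => absurd h' h⟩
    choose p hp using h1
    have h2 : ∀ c : Q, ∃ k ∈ G, |ρ (p c) - θ * (k : ℝ)| ≤ θ := fun c => grid hθ _ (hρ _)
    choose k hk hk' using h2
    refine ⟨Φ k, Finset.mem_image_of_mem _ (Fintype.mem_piFinset.2 hk), fun x hx => ?_⟩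
    have hxc := mem_cells hℓ hx
    have h3 : Φ k x = θ * (k ⟨qc ℓ x, hxc⟩ : ℝ) := by
      simp only [Φ]
      rw [dif_pos hxc]
    rw [h3]
    have h4 : qc ℓ (p ⟨qc ℓ x, hxc⟩) = qc ℓ x := hp ⟨qc ℓ x, hxc⟩ ⟨x, hx, rfl⟩
    have h5 := qc_norm hℓ h4.symm
    have h6 := hL x (p ⟨qc ℓ x, hxc⟩)
    have h7 : |ρ x - ρ (p ⟨qc ℓ x, hxc⟩)| ≤ θ := by
      refine h6.trans ?_
      calc θ / ℓ * ‖x - p ⟨qc ℓ x, hxc⟩‖ ≤ θ / ℓ * ℓ :=
            mul_le_mul_of_nonneg_left h5 (by positivity)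
        _ = θ := div_mul_cancel₀ _ hl'.ne'
    have h8 := hk' ⟨qc ℓ x, hxc⟩
    have h9 : ρ x - θ * (k ⟨qc ℓ x, hxc⟩ : ℝ) = (ρ x - ρ (p ⟨qc ℓ x, hxc⟩)) +
        (ρ (p ⟨qc ℓ x, hxc⟩) - θ * (k ⟨qc ℓ x, hxc⟩ : ℝ)) := by ring
    rw [h9]
    refine (abs_add_le _ _).trans ?_
    linarith

end Pool.Agent.Q257.LE
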