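import Pool.Agent.Q218.LE.Stm2
import Pool.Agent.Q257.LE.Net0

/-! # Project LE, job NET -/

set_option autoImplicit false

namespace Pool.Agent.Q257.LE

theorem t_NET : Pool.Agent.Q218.LE.S_NET := net

end Pool.Agent.Q257.LE
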